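import Pool.Agent.Helper15.PE.Fin
import Pool.Agent.Helper15.PE.Conn
import Pool.Agent.Helper90.PE.Window

/-!
# P-Eulerian polynomials are log-concave up to a subexponential factor

For every labelled poset `P` on `n` elements, every `x > 0` and all `i ≤ k ≤ j` the coefficients `a_m` of `W_P` satisfy
`min (a_i x^i) (a_j x^j) ≤ n^3 exp (C min (n |log x|) (√(n log (n + 1)))) a_k x^k`.

Proof idea.
1. The chain of Bubley and Dyer on the linear extensions (adjacent transpositions, position `p` with weight `(p + 1)(n - 1 - p)`)
   contracts a Lipschitz constant, so it has a spectral gap; a transposition changes the number of descents by at most one.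
   Hence `12 (∑_{q<k} a_q) (∑_{q≥k} a_q) ≤ (n³ - n) a_k ∑ a_q`: unimodality up to a polynomial factor (the case `x = 1`).
2. The coefficients of `W_P(x) / (1 - x)^n` are log-concave.  If `a_q x^q ≤ c` for all `q`, with equality at `i` and `j`, this
   forces, for every `k` between `i` and `j`, a `q` with `a_q x^q ≥ c / (2 n)` and `|q - k| < w`, where `w` is (up to a
   logarithm) the width of the negative binomial distribution with parameters `n`, `x`.  Step 1, applied between such `q` to
   the left and to the right of `k`, costs the factor `x^(-2 w)` and gives the bound for `a_k`.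
3. A chord argument (tilting by `x`) gives the statement for all `x`, and reversing the labels gives `x > 1`.
-/

set_option autoImplicit false
open Classical

namespace Pool.Agent.Results.MP_6da2a2_co.ApproxLogConcave

/-- P-Eulerian polynomials are log-concave up to a subexponential factor: there is a constant `C` such that for every labelled
poset on `n ≥ 1` elements, all `x > 0` and all `i ≤ k ≤ j`,
`min (A_i x^i) (A_j x^j) ≤ n^3 exp (C min (n |log x|) (√(n log (n + 1)))) A_k x^k`, where `A_m` is the number of the linear
extensions with `m - 1` descents. -/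
theorem result :
  ∃ C : ℝ, 0 < C ∧
  ∀ (n : ℕ), 1 ≤ n → ∀ (le : Fin n → Fin n → Prop),
    (∀ a, le a a) →
    (∀ a b, le a b → le b a → a = b) →
    (∀ a b c, le a b → le b c → le a c) →
    ∀ (A : ℕ → ℕ),
      (∀ m : ℕ, A m =
        ((Finset.univ : Finset (Equiv.Perm (Fin n))).filter
          (fun σ => (∀ i j : Fin n, le (σ i) (σ j) → σ i ≠ σ j → i < j) ∧
            ((Finset.univ : Finset (Fin n × Fin n)).filter
              (fun p => p.2.val = p.1.val + 1 ∧ σ p.2 < σ p.1)).card + 1 = m)).card) →
      ∀ x : ℝ, 0 < x → ∀ i k j : ℕ, i ≤ k → k ≤ j →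
        min ((A i : ℝ) * x ^ i) ((A j : ℝ) * x ^ j) ≤
          (n : ℝ) ^ 3 * Real.exp (C * min ((n : ℝ) * |Real.log x|) (Real.sqrt ((n : ℝ) * Real.log ((n : ℝ) + 1)))) *
            ((A k : ℝ) * x ^ k) :=
  Pool.Agent.Helper15.PE.final' Pool.Agent.Helper15.PE.hConn Pool.Agent.Helper90.PE.hWindow'

end Pool.Agent.Results.MP_6da2a2_co.ApproxLogConcave
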