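import Mathlib
import Pool.Agent.Helper13.PS.Rel

set_option autoImplicit false
open Classical

namespace Pool.Agent.Results.MP_6da2a2_co.DimensionTwo

/-- Let `le` be a partial order of dimension at most two on `{1..n}` (the intersection of the two
linear orders `l1` and `l2`), with arbitrary labels such that the sign of a cover relation `a ⋖ b`
(is `a < b` or `b < a` as integers?) depends only on the lower element `a`, or only on the upper
element `b`; this includes all natural labellings (`s` always true). Let `A m` be the number of its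
linear extensions with `m - 1` descents. Then `A 1, ..., A n` is ultra-log-concave, log-concave even
in the strong form `A k * A (k + d + 2) ≤ A (k + 1) * A (k + d + 1)`, and unimodal. -/
theorem result :
  ∀ (n : ℕ), 1 ≤ n → ∀ (le l1 l2 : Fin n → Fin n → Prop),
    (∀ a, l1 a a) →
    (∀ a b, l1 a b → l1 b a → a = b) →
    (∀ a b c, l1 a b → l1 b c → l1 a c) →
    (∀ a b, l1 a b ∨ l1 b a) →
    (∀ a, l2 a a) →
    (∀ a b, l2 a b → l2 b a → a = b) →
    (∀ a b c, l2 a b → l2 b c → l2 a c) →
    (∀ a b, l2 a b ∨ l2 b a) →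
    (∀ a b, le a b ↔ l1 a b ∧ l2 a b) →
    ∀ (s : Fin n → Prop),
      ((∀ a b, le a b → a ≠ b → (∀ x, le a x → le x b → x = a ∨ x = b) → (a < b ↔ s a)) ∨
       (∀ a b, le a b → a ≠ b → (∀ x, le a x → le x b → x = a ∨ x = b) → (a < b ↔ s b))) →
    ∀ (A : ℕ → ℕ),
      (∀ m : ℕ, A m =
        ((Finset.univ : Finset (Equiv.Perm (Fin n))).filter
          (fun σ => (∀ i j : Fin n, le (σ i) (σ j) → σ i ≠ σ j → i < j) ∧
            ((Finset.univ : Finset (Fin n × Fin n)).filter
              (fun p => p.2.val = p.1.val + 1 ∧ σ p.2 < σ p.1)).card + 1 = m)).card) →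
      (∀ k : ℕ, 1 ≤ k → k ≤ n →
        k * (n + 1 - k) * (A (k - 1) * A (k + 1)) ≤ (k - 1) * (n - k) * A k ^ 2) ∧
      (∀ k : ℕ, 1 ≤ k → A (k - 1) * A (k + 1) ≤ A k ^ 2) ∧
      (∀ k d : ℕ, A k * A (k + d + 2) ≤ A (k + 1) * A (k + d + 1)) ∧
      (∃ m : ℕ, (∀ i : ℕ, i < m → A i ≤ A (i + 1)) ∧ (∀ i : ℕ, m ≤ i → A (i + 1) ≤ A i)) := by
  intro n hn le l1 l2 h1 h2 h3 h4 h5 h6 h7 h8 h9 s h10 A hA
  have h10' : (∀ a b, Helper13.PS.cov le a b → (a < b ↔ s a)) ∨
      (∀ a b, Helper13.PS.cov le a b → (a < b ↔ s b)) := by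
    rcases h10 with h | h
    · exact Or.inl fun a b hab => h a b hab.1 hab.2.1 hab.2.2
    · exact Or.inr fun a b hab => h a b hab.1 hab.2.1 hab.2.2
  have h0 : A 0 = 0 := by
    rw [hA, Finset.card_eq_zero]
    apply Finset.filter_eq_empty_iff.2
    intro σ _ h
    omega
  have hs : ∀ k, A (k + 1) = Helper16.PEul.numExt le k := by
    intro k
    rw [hA]
    unfold Helper16.PEul.numExt
    congr 1
    ext σ
    simp only [Finset.mem_filter, Nat.add_right_cancel_iff]
  have hr : ∀ a, le a a := fun a => (h9 a a).2 ⟨h1 a, h5 a⟩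
  have ha : ∀ a b, le a b → le b a → a = b := fun a b hab hba =>
    h2 a b ((h9 a b).1 hab).1 ((h9 b a).1 hba).1
  have ht : ∀ a b c, le a b → le b c → le a c := fun a b c hab hbc =>
    (h9 a c).2 ⟨h3 a b c ((h9 a b).1 hab).1 ((h9 b c).1 hbc).1,
      h7 a b c ((h9 a b).1 hab).2 ((h9 b c).1 hbc).2⟩
  have hv : ∀ k, n ≤ k → Helper16.PEul.numExt le k = 0 := by
    intro k hk
    rw [← hs, hA, Finset.card_eq_zero]
    apply Finset.filter_eq_empty_iff.2
    intro σ _ h
    have h11 : ((Finset.univ : Finset (Fin n × Fin n)).filter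
        (fun p => p.2.val = p.1.val + 1 ∧ σ p.2 < σ p.1)).card ≤ n - 1 := by
      have h12 : ((Finset.univ : Finset (Fin n × Fin n)).filter
          (fun p => p.2.val = p.1.val + 1 ∧ σ p.2 < σ p.1)).card ≤ (Finset.range (n - 1)).card := by
        apply Finset.card_le_card_of_injOn (fun p => p.1.val)
        · intro p hp
          have hp' := (Finset.mem_filter.1 (Finset.mem_coe.1 hp)).2.1
          have := p.2.isLt
          simp only [Finset.coe_range, Set.mem_Iio]
          omega
        · intro p hp q hq hpq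
          have hp' := (Finset.mem_filter.1 (Finset.mem_coe.1 hp)).2.1
          have hq' := (Finset.mem_filter.1 (Finset.mem_coe.1 hq)).2.1
          have hpq' : p.1.val = q.1.val := hpq
          exact Prod.ext (Fin.ext hpq') (Fin.ext (by omega))
      rwa [Finset.card_range] at h12
    have h13 := h.2
    omega
  have hfin := Helper13.PS.finalS n hn le l1 l2 h1 h2 h3 h4 h5 h6 h7 h8 h9 s h10'
  have hlc : ∀ k, Helper16.PEul.numExt le k * Helper16.PEul.numExt le (k + 2) ≤
      Helper16.PEul.numExt le (k + 1) ^ 2 := by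
    intro k
    rcases Nat.lt_or_ge (k + 2) n with hk | hk
    · have h := hfin (k + 1) (by omega)
      rw [show k + 1 - 1 = k by omega, show k + 1 + 1 = k + 2 by omega] at h
      have h11 : (k + 1) * (n - 1 - (k + 1)) ≤ (k + 2) * (n - (k + 1)) :=
        Nat.mul_le_mul (by omega) (by omega)
      have h12 : 0 < (k + 2) * (n - (k + 1)) := Nat.mul_pos (by omega) (by omega)
      exact Nat.le_of_mul_le_mul_left (h.trans (Nat.mul_le_mul_right _ h11)) h12
    · rw [hv (k + 2) hk, Nat.mul_zero]
      exact Nat.zero_le _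
  have hgap : ∀ i j k : ℕ, i ≤ j → j ≤ k → 0 < Helper16.PEul.numExt le i →
      0 < Helper16.PEul.numExt le k → 0 < Helper16.PEul.numExt le j := by
    intro i j k hij hjk hi hk
    have := Helper50.PE.pf_Gap (Helper16.PEul.leN le)
      ((Finset.univ : Finset (Fin n)).image Fin.val) (Helper50.PE.po_image hr ha ht _) i j k hij hjk
    rw [Helper50.PE.nd_univ, Helper50.PE.nd_univ, Helper50.PE.nd_univ] at this
    exact this hi hk
  have hst := Helper50.PE.pf_Strong (fun k => Helper16.PEul.numExt le k) hlc hgap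
  have strong : ∀ k d : ℕ, A k * A (k + d + 2) ≤ A (k + 1) * A (k + d + 1) := by
    intro k d
    rcases Nat.eq_zero_or_pos k with rfl | hk
    · rw [h0, Nat.zero_mul]; exact Nat.zero_le _
    · obtain ⟨k, rfl⟩ := Nat.exists_eq_add_of_lt hk
      have e1 : 0 + k + 1 = k + 1 := by omega
      have e2 : 0 + k + 1 + d + 2 = (k + d + 2) + 1 := by omega
      have e3 : 0 + k + 1 + 1 = (k + 1) + 1 := by omega
      have e4 : 0 + k + 1 + d + 1 = (k + d + 1) + 1 := by omega
      rw [e2, e3, e4, e1, hs, hs, hs, hs]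
      exact hst k (k + d) (Nat.le_add_right _ _)
  refine ⟨?_, ?_, strong, ?_⟩
  · intro k hk _
    rcases Nat.lt_or_ge 1 k with hk1 | hk1
    · obtain ⟨j, rfl⟩ : ∃ j, k = j + 2 := ⟨k - 2, by omega⟩
      have h := hfin (j + 1) (by omega)
      rw [show j + 1 - 1 = j by omega, ← hs, ← hs, ← hs] at h
      have e1 : j + 2 - 1 = j + 1 := by omega
      have e2 : n + 1 - (j + 2) = n - (j + 1) := by omega
      have e3 : n - (j + 2) = n - 1 - (j + 1) := by omega
      rw [e1, e2, e3]
      exact h
    · have : k = 1 := by omega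
      subst this
      rw [show (1 : ℕ) - 1 = 0 from rfl, h0, Nat.zero_mul, Nat.mul_zero]
      exact Nat.zero_le _
  · intro k hk
    obtain ⟨k, rfl⟩ := Nat.exists_eq_add_of_lt hk
    have h := strong (0 + k) 0
    have e1 : 0 + k + 1 - 1 = 0 + k := by omega
    rw [Nat.add_zero] at h
    rw [e1, sq]
    exact h
  · refine Helper16.PEul.unimodal_of_strong (N := n + 1) ?_ strong
    intro m hm
    obtain ⟨j, rfl⟩ : ∃ j, m = j + 1 := ⟨m - 1, by omega⟩
    rw [hs]
    exact hv j (by omega)

end Pool.Agent.Results.MP_6da2a2_co.DimensionTwo
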