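import Mathlib
import Pool.Agent.Helper50.PE.Final

set_option autoImplicit false
open Classical

namespace Pool.Agent.Results.MP_6da2a2_co.DisjointUnion

/-- The `m`-th coefficient of the `P`-Eulerian polynomial of the labelled poset `le` on `{1..n}`:
the number of linear extensions (as permutations) with `m - 1` descents. -/
noncomputable def coeffW {n : ℕ} (le : Fin n → Fin n → Prop) (m : ℕ) : ℕ :=
  ((Finset.univ : Finset (Equiv.Perm (Fin n))).filter
    (fun σ => (∀ i j : Fin n, le (σ i) (σ j) → σ i ≠ σ j → i < j) ∧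
      ((Finset.univ : Finset (Fin n × Fin n)).filter
        (fun p => p.2.val = p.1.val + 1 ∧ σ p.2 < σ p.1)).card + 1 = m)).card

/-- log-concavity of a sequence of natural numbers -/
def LogConc (A : ℕ → ℕ) : Prop := ∀ k : ℕ, 1 ≤ k → A (k - 1) * A (k + 1) ≤ A k ^ 2

/-- The family of subsets of a labelled poset (with the induced order and the induced order of
the labels) generated by the subsets whose `P`-Eulerian polynomial is log-concave and by the
subsets without three pairwise incomparable elements, under disjoint unions without relations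
(arbitrary labels) and under ordinal sums such that the labels of the maximal elements of the lower
part are all smaller, or all larger, than the labels of the minimal elements of the upper part. -/
inductive Built {n : ℕ} (le : Fin n → Fin n → Prop) : Finset (Fin n) → Prop
  | logConc (m : ℕ) (e : Fin m → Fin n) (he : StrictMono e)
      (h : LogConc (coeffW (fun a b : Fin m => le (e a) (e b)))) :
      Built le (Finset.univ.image e)
  | width (S : Finset (Fin n))
      (h : ∀ x ∈ S, ∀ y ∈ S, ∀ z ∈ S, x ≠ y → y ≠ z → x ≠ z →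
        le x y ∨ le y x ∨ le y z ∨ le z y ∨ le x z ∨ le z x) : Built le S
  | union (S T : Finset (Fin n)) (hS : Built le S) (hT : Built le T) (hd : Disjoint S T)
      (h : ∀ x ∈ S, ∀ y ∈ T, ¬ le x y ∧ ¬ le y x) : Built le (S ∪ T)
  | ordinal (S T : Finset (Fin n)) (hS : Built le S) (hT : Built le T) (hd : Disjoint S T)
      (h : ∀ x ∈ S, ∀ y ∈ T, le x y)
      (hj : (∀ x ∈ S, (∀ z ∈ S, le x z → z = x) → ∀ y ∈ T, (∀ z ∈ T, le z y → z = y) → x < y) ∨
        (∀ x ∈ S, (∀ z ∈ S, le x z → z = x) → ∀ y ∈ T, (∀ z ∈ T, le z y → z = y) → y < x)) :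
      Built le (S ∪ T)

theorem coeffW_zero {n : ℕ} (le : Fin n → Fin n → Prop) : coeffW le 0 = 0 := by
  unfold coeffW
  rw [Finset.card_eq_zero]
  apply Finset.filter_eq_empty_iff.2
  intro σ _ h
  omega

theorem coeffW_succ {n : ℕ} (le : Fin n → Fin n → Prop) (k : ℕ) :
    coeffW le (k + 1) = Helper16.PEul.numExt le k := by
  unfold coeffW Helper16.PEul.numExt
  congr 1
  ext σ
  simp only [Finset.mem_filter, Nat.add_right_cancel_iff]

theorem image_disjoint {n : ℕ} {S T : Finset (Fin n)} (h : Disjoint S T) :
    Disjoint (S.image Fin.val) (T.image Fin.val) := by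
  rw [Finset.disjoint_left]
  intro x hx hy
  obtain ⟨a, ha, rfl⟩ := Finset.mem_image.1 hx
  obtain ⟨b, hb, hab⟩ := Finset.mem_image.1 hy
  have := Fin.ext hab
  subst this
  exact Finset.disjoint_left.1 h ha hb

theorem built_sln {n : ℕ} {le : Fin n → Fin n → Prop} (hr : ∀ a, le a a)
    (ha : ∀ a b, le a b → le b a → a = b) (ht : ∀ a b c, le a b → le b c → le a c)
    {S : Finset (Fin n)} (h : Built le S) :
    Helper50.PE.SLN (fun k => (Helper50.PE.nd (Helper16.PEul.leN le) (S.image Fin.val) k : ℝ)) := by
  induction h with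
  | logConc m e he h =>
    refine Helper50.PE.sln_base hr ha ht e he fun k => ?_
    have := h (k + 2) (by omega)
    rw [show k + 2 - 1 = k + 1 by omega, show k + 2 + 1 = (k + 2) + 1 from rfl,
      show k + 2 = (k + 1) + 1 from rfl, coeffW_succ, coeffW_succ, coeffW_succ] at this
    exact this
  | width S h => exact Helper50.PE.sln_width hr ha ht S h
  | union S T _ _ hd h ihS ihT =>
    rw [Finset.image_union]
    refine Helper50.PE.closure' (image_disjoint hd) ?_ ihS ihT
    intro x hx y hy
    obtain ⟨a, ha, rfl⟩ := Finset.mem_image.1 hx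
    obtain ⟨b, hb, rfl⟩ := Finset.mem_image.1 hy
    rw [Helper16.PEul.leN_val, Helper16.PEul.leN_val]
    exact h a ha b hb
  | ordinal S T _ _ hd h hj ihS ihT =>
    rw [Finset.image_union]
    have maxi : ∀ (a : Fin n), (∀ z ∈ S.image Fin.val, Helper16.PEul.leN le a.val z → z = a.val) →
        ∀ z ∈ S, le a z → z = a := fun a hm z hz hle =>
      Fin.ext (hm z.val (Finset.mem_image_of_mem _ hz) ((Helper16.PEul.leN_val le a z).2 hle))
    have mini : ∀ (b : Fin n), (∀ z ∈ T.image Fin.val, Helper16.PEul.leN le z b.val → z = b.val) →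
        ∀ z ∈ T, le z b → z = b := fun b hm z hz hle =>
      Fin.ext (hm z.val (Finset.mem_image_of_mem _ hz) ((Helper16.PEul.leN_val le z b).2 hle))
    have hle' : ∀ x ∈ S.image Fin.val, ∀ y ∈ T.image Fin.val, Helper16.PEul.leN le x y := by
      intro x hx y hy
      obtain ⟨a, ha', rfl⟩ := Finset.mem_image.1 hx
      obtain ⟨b, hb', rfl⟩ := Finset.mem_image.1 hy
      exact (Helper16.PEul.leN_val le a b).2 (h a ha' b hb')
    have hPO : Helper50.PE.PO (Helper16.PEul.leN le) (S.image Fin.val ∪ T.image Fin.val) := by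
      rw [← Finset.image_union]
      exact Helper50.PE.po_image hr ha ht _
    rcases hj with hj | hj
    · refine Helper50.PE.ordinal 0 (Or.inl rfl) hPO (image_disjoint hd) hle' ?_ ihS ihT
      intro x hx hm y hy hn
      obtain ⟨a, ha', rfl⟩ := Finset.mem_image.1 hx
      obtain ⟨b, hb', rfl⟩ := Finset.mem_image.1 hy
      have h1 : a < b := hj a ha' (maxi a hm) b hb' (mini b hn)
      rw [if_neg (fun h2 : b.val < a.val => absurd (h1.trans h2) (lt_irrefl _))]
    · refine Helper50.PE.ordinal 1 (Or.inr rfl) hPO (image_disjoint hd) hle' ?_ ihS ihT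
      intro x hx hm y hy hn
      obtain ⟨a, ha', rfl⟩ := Finset.mem_image.1 hx
      obtain ⟨b, hb', rfl⟩ := Finset.mem_image.1 hy
      have h1 : b < a := hj a ha' (maxi a hm) b hb' (mini b hn)
      rw [if_pos (show b.val < a.val from h1)]

/-- Log-concavity of `P`-Eulerian polynomials is preserved by disjoint unions of labelled posets,
for every interleaving of the labels. If the labelled poset on `{1..n}` is the disjoint union of
two nonempty parts without relations between them, and both parts belong to the family `Built`,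
then the coefficients of its `P`-Eulerian polynomial are log-concave, even
`A k * A (k + d + 2) ≤ A (k + 1) * A (k + d + 1)`, and unimodal. -/
theorem result :
  ∀ (n : ℕ) (le : Fin n → Fin n → Prop),
    (∀ a, le a a) →
    (∀ a b, le a b → le b a → a = b) →
    (∀ a b c, le a b → le b c → le a c) →
    ∀ S T : Finset (Fin n), S.Nonempty → T.Nonempty → Disjoint S T → S ∪ T = Finset.univ →
      (∀ x ∈ S, ∀ y ∈ T, ¬ le x y ∧ ¬ le y x) →
      Built le S → Built le T →
      LogConc (coeffW le) ∧
      (∀ k d : ℕ, coeffW le k * coeffW le (k + d + 2) ≤ coeffW le (k + 1) * coeffW le (k + d + 1)) ∧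
      (∃ m : ℕ, (∀ i : ℕ, i < m → coeffW le i ≤ coeffW le (i + 1)) ∧
        (∀ i : ℕ, m ≤ i → coeffW le (i + 1) ≤ coeffW le i)) := by
  intro n le hr ha ht S T _ _ hd hun hn hS hT
  have hB : Built le (Finset.univ : Finset (Fin n)) := by
    rw [← hun]
    exact Built.union S T hS hT hd hn
  have key := built_sln hr ha ht hB
  have strong : ∀ k d : ℕ, coeffW le k * coeffW le (k + d + 2) ≤
      coeffW le (k + 1) * coeffW le (k + d + 1) := by
    intro k d
    rcases Nat.eq_zero_or_pos k with rfl | hk
    · rw [coeffW_zero, Nat.zero_mul]; exact Nat.zero_le _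
    · obtain ⟨k, rfl⟩ := Nat.exists_eq_add_of_lt hk
      have e1 : 0 + k + 1 = k + 1 := by omega
      have e2 : 0 + k + 1 + d + 2 = (k + d + 2) + 1 := by omega
      have e3 : 0 + k + 1 + 1 = (k + 1) + 1 := by omega
      have e4 : 0 + k + 1 + d + 1 = (k + d + 1) + 1 := by omega
      rw [e2, e3, e4, e1, coeffW_succ, coeffW_succ, coeffW_succ, coeffW_succ]
      have h := key.2 k (k + d) (Nat.le_add_right _ _)
      simp only [Helper50.PE.nd_univ] at h
      exact_mod_cast h
  refine ⟨?_, strong, ?_⟩
  · intro k hk
    obtain ⟨k, rfl⟩ := Nat.exists_eq_add_of_lt hk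
    have h := strong (0 + k) 0
    have e1 : 0 + k + 1 - 1 = 0 + k := by omega
    rw [Nat.add_zero] at h
    rw [e1, sq]
    exact h
  · refine Helper16.PEul.unimodal_of_strong (N := n * n + 2) ?_ strong
    intro m hm
    unfold coeffW
    rw [Finset.card_eq_zero]
    apply Finset.filter_eq_empty_iff.2
    intro σ _ h
    have h1 := Finset.card_filter_le (Finset.univ : Finset (Fin n × Fin n))
      (fun p => p.2.val = p.1.val + 1 ∧ σ p.2 < σ p.1)
    have h2 : (Finset.univ : Finset (Fin n × Fin n)).card = n * n := by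
      rw [Finset.card_univ, Fintype.card_prod, Fintype.card_fin]
    rw [h2] at h1
    have h3 := h.2
    omega

end Pool.Agent.Results.MP_6da2a2_co.DisjointUnion
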