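import Mathlib
import Pool.Agent.Helper16.PEul.Main

set_option autoImplicit false
open Classical

namespace Pool.Agent.Results.MP_6da2a2_co.WidthTwo

/-- The coefficients of the `P`-Eulerian polynomial of an arbitrarily labelled poset on
`{1..n}` in which no three elements are pairwise incomparable form a log-concave sequence, even
`A k * A (k + d + 2) ≤ A (k + 1) * A (k + d + 1)`, and a unimodal sequence. -/
theorem result :
  ∀ (n : ℕ), 1 ≤ n → ∀ (le : Fin n → Fin n → Prop),
    (∀ a, le a a) →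
    (∀ a b, le a b → le b a → a = b) →
    (∀ a b c, le a b → le b c → le a c) →
    (∀ x y z : Fin n, x ≠ y → y ≠ z → x ≠ z →
      le x y ∨ le y x ∨ le y z ∨ le z y ∨ le x z ∨ le z x) →
    ∀ (A : ℕ → ℕ),
      (∀ m : ℕ, A m =
        ((Finset.univ : Finset (Equiv.Perm (Fin n))).filter
          (fun σ => (∀ i j : Fin n, le (σ i) (σ j) → σ i ≠ σ j → i < j) ∧
            ((Finset.univ : Finset (Fin n × Fin n)).filter
              (fun p => p.2.val = p.1.val + 1 ∧ σ p.2 < σ p.1)).card + 1 = m)).card) →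
      (∀ k : ℕ, 1 ≤ k → A (k - 1) * A (k + 1) ≤ A k ^ 2) ∧
      (∀ k d : ℕ, A k * A (k + d + 2) ≤ A (k + 1) * A (k + d + 1)) ∧
      (∃ m : ℕ, (∀ i : ℕ, i < m → A i ≤ A (i + 1)) ∧ (∀ i : ℕ, m ≤ i → A (i + 1) ≤ A i)) := by
  intro n _ le hr ha ht hw A hA
  have h0 : A 0 = 0 := by
    rw [hA, Finset.card_eq_zero]
    apply Finset.filter_eq_empty_iff.2
    intro σ _ h
    omega
  have hs : ∀ k, A (k + 1) = Helper16.PEul.numExt le k := by
    intro k
    rw [hA]
    unfold Helper16.PEul.numExt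
    congr 1
    ext σ
    simp only [Finset.mem_filter, Nat.add_right_cancel_iff]
  obtain ⟨C, _, hC1, hC2⟩ := Helper16.PEul.two_chains hr ha ht n (Finset.univ : Finset (Fin n))
    (Finset.card_fin n) (fun x _ y _ z _ => hw x y z)
  have hC2' : ∀ x ∉ C, ∀ y ∉ C, le x y ∨ le y x := fun x hx y hy =>
    hC2 x (Finset.mem_sdiff.2 ⟨Finset.mem_univ _, hx⟩) y
      (Finset.mem_sdiff.2 ⟨Finset.mem_univ _, hy⟩)
  have strong : ∀ k d : ℕ, A k * A (k + d + 2) ≤ A (k + 1) * A (k + d + 1) := by
    intro k d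
    rcases Nat.eq_zero_or_pos k with rfl | hk
    · rw [h0, Nat.zero_mul]; exact Nat.zero_le _
    · obtain ⟨k, rfl⟩ := Nat.exists_eq_add_of_lt hk
      have e1 : 0 + k + 1 = k + 1 := by omega
      have e2 : 0 + k + 1 + d + 2 = (k + d + 2) + 1 := by omega
      have e3 : 0 + k + 1 + 1 = (k + 1) + 1 := by omega
      have e4 : 0 + k + 1 + d + 1 = (k + d + 1) + 1 := by omega
      rw [e2, e3, e4, e1, hs, hs, hs, hs]
      exact Helper16.PEul.numExt_logconcave hr ha ht C hC1 hC2' k d
  refine ⟨?_, strong, ?_⟩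
  · intro k hk
    obtain ⟨k, rfl⟩ := Nat.exists_eq_add_of_lt hk
    have h := strong (0 + k) 0
    have e1 : 0 + k + 1 - 1 = 0 + k := by omega
    rw [Nat.add_zero] at h
    rw [e1, sq]
    exact h
  · refine Helper16.PEul.unimodal_of_strong (N := n * n + 2) ?_ strong
    intro m hm
    rw [hA, Finset.card_eq_zero]
    apply Finset.filter_eq_empty_iff.2
    intro σ _ h
    have h1 := Finset.card_filter_le (Finset.univ : Finset (Fin n × Fin n))
      (fun p => p.2.val = p.1.val + 1 ∧ σ p.2 < σ p.1)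
    have h2 : (Finset.univ : Finset (Fin n × Fin n)).card = n * n := by
      rw [Finset.card_univ, Fintype.card_prod, Fintype.card_fin]
    rw [h2] at h1
    have h3 := h.2
    omega

end Pool.Agent.Results.MP_6da2a2_co.WidthTwo
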